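import Pool.Agent.Lib.MP_509dcf_co.Flip5

open Pool.Agent.Lib.MP_509dcf_co
open scoped RealInnerProductSpace

namespace Pool.Agent.Results.MP_509dcf_co.DenseDiameters

theorem result (n : ℕ) (hn : 0 < n) :
    (∃ F : ℝ → Finset E, (∀ t, IsMin n (F t)) ∧ ∀ s t, Congr (F s) (F t) → s = t) ∨
    ∀ A : Finset E, IsMin n A → ∀ v : E, ‖v‖ = 1 →
      ∃ a ∈ A, ∃ b ∈ A, dist a b = Metric.diam (A : Set E) ∧ |⟪v, b - a⟫| < 8 := by
  refine or_iff_not_imp_left.2 fun hF A hA v hv => ?_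
  have ip (v x : E) : ⟪v, x⟫ = v 0 * x 0 + v 1 * x 1 := by
    simp [PiLp.inner_apply, Fin.sum_univ_two, mul_comm]
  have e : v 0 ^ 2 + (-v 1) ^ 2 = 1 := by
    have := real_inner_self_eq_norm_sq v
    rw [ip, hv] at this
    linarith
  obtain ⟨a, ha, b, hb, h1, h2⟩ := Flip.dir hA.2.1 (Flip.jm hF hA) (Flip.co0.rot e 0 0)
    (Finset.card_pos.1 (hA.1.symm ▸ hn))
  refine ⟨a, ha, b, hb, h1, ?_⟩
  convert h2 using 2
  rw [ip, PiLp.sub_apply, PiLp.sub_apply]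
  ring

end Pool.Agent.Results.MP_509dcf_co.DenseDiameters
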