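import Pool.Agent.Lib.MP_509dcf_co.Jam

open Pool.Agent.Lib.MP_509dcf_co
open scoped RealInnerProductSpace

namespace Pool.Agent.Results.MP_509dcf_co.JammedOrFlexible

theorem result (n : ℕ) :
    (∃ F : ℝ → Finset E, (∀ t, IsMin n (F t)) ∧ ∀ s t, Congr (F s) (F t) → s = t) ∨
    ∀ A : Finset E, IsMin n A →
      (∀ u : E → E, (∀ x ∈ A, u x ≠ 0 → Inner A x) → (∃ x ∈ A, u x ≠ 0) →
        ∃ x ∈ A, ∃ y ∈ A, dist x y = 1 ∧ ⟪u x - u y, x - y⟫ < 0) ∧
      (∀ S : Finset E, S ⊆ A → S.Nonempty → (∀ x ∈ S, Inner A x) →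
        2 * S.card + 1 ≤ (contacts A S).ncard) ∧
      2 * (n : ℝ) - 24 * √n - 8 ≤ (contacts A A).ncard := by
  classical
  refine or_iff_not_imp_left.2 fun hF A hA => ?_
  have hJ (u : E → E) (h1 : ∀ x ∈ A, u x ≠ 0 → Inner A x) (h2 : ∃ x ∈ A, u x ≠ 0) :
      ∃ x ∈ A, ∃ y ∈ A, dist x y = 1 ∧ ⟪u x - u y, x - y⟫ < 0 := by
    by_contra h
    exact hF (flex hA u h1 h2 fun x hx y hy e => not_lt.1 fun hlt => h ⟨x, hx, y, hy, e, hlt⟩)
  have hC (S : Finset E) (hS : S ⊆ A) (h0 : S.Nonempty) (h : ∀ x ∈ S, Inner A x) :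
      2 * S.card + 1 ≤ (contacts A S).ncard :=
    count h0 fun u h1 ⟨x, hx⟩ => hJ u (fun y _ hy => h y (h1 y hy)) ⟨x, hS (h1 x hx), hx⟩
  refine ⟨hJ, hC, ?_⟩
  have h1 := card_diam hA.2.1 (Finset.filter_subset (fun x => ¬ Inner A x) A)
    fun x hx => (Finset.mem_filter.1 hx).2
  have h2 := diam_sq_le hA
  have h3 : ((A.filter (Inner A)).card : ℝ) + (A.filter fun x => ¬ Inner A x).card = n := by
    exact_mod_cast (Finset.card_filter_add_card_filter_not _).trans hA.1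
  have h4 : 2 * (A.filter (Inner A)).card ≤ (contacts A A).ncard := by
    rcases (A.filter (Inner A)).eq_empty_or_nonempty with h | h
    · simp [h]
    refine (Nat.le_of_succ_le (hC _ (Finset.filter_subset _ _) h
      fun x hx => (Finset.mem_filter.1 hx).2)).trans (Set.ncard_le_ncard
        (fun _ ⟨x, hx, h⟩ => ⟨x, Finset.filter_subset _ _ hx, h⟩) ?_)
    exact ((A ×ˢ A).image fun p => s(p.1, p.2)).finite_toSet.subset
      fun _ ⟨x, hx, y, hy, _, e⟩ => by simpa using ⟨x, y, ⟨hx, hy⟩, e.symm⟩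
  have h5 : 2 * ((A.filter (Inner A)).card : ℝ) ≤ (contacts A A).ncard := by exact_mod_cast h4
  linarith

end Pool.Agent.Results.MP_509dcf_co.JammedOrFlexible
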