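import Pool.Agent.Lib.MP_509dcf_co.ExpMain

open Pool.Agent.Lib.MP_509dcf_co

namespace Pool.Agent.Results.MP_509dcf_co.LatticeExp

/-- For every planar lattice there is `C` such that for `n ≥ C m ^ 3` there are `2 ^ m` pairwise
non-congruent `n`-point subsets of the lattice of least diameter among such subsets. -/
theorem result (v w : E) (h : LinearIndependent ℝ ![v, w]) :
    ∃ C : ℕ, ∀ m n : ℕ, C * m ^ 3 ≤ n →
      ∃ F : Fin (2 ^ m) → Finset E, (∀ k, IsMinIn (Lat v w) n (F k)) ∧
        ∀ k l, k ≠ l → ¬ Congr (F k) (F l) :=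
  Rows.manyExp h

end Pool.Agent.Results.MP_509dcf_co.LatticeExp
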